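import Mathlib

namespace Pool.Agent.H.MP_c9d3d4_lc

open Finset MeasureTheory

theorem comb (m : ℕ) (K : ℝ) (hK : 0 < K) (a : Finset ℕ → ℕ → ℝ)
    (h0 : ∀ x, x ⊆ range (2 * m + 1) → x.card ≤ m + 1 → ∀ i, 0 ≤ a x i ∧ a x i ≤ 1)
    (h1 : ∀ y, y ⊆ range (2 * m + 1) → y.card = m → ∀ j ∈ range (2 * m + 1), j ∉ y → ∀ i,
      a y i ≤ K * a (insert j y) i ∧ 1 - a y i ≤ K * (1 - a (insert j y) i)) :
    ∃ x, x ⊆ range (2 * m + 1) ∧ x.card = m + 1 ∧
      (m : ℝ) / (2 * K) ≤ ∑ i ∈ range (2 * m + 1), if i ∈ x then a x i else 1 - a x i := by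
  by_contra hcon
  push Not at hcon
  set D := range (2 * m + 1) with hD
  set M : ℝ := m / (2 * K) with hM
  set X := powersetCard (m + 1) D with hX
  set Y := powersetCard m D with hY
  have hcard : X.card = Y.card := by
    rw [hX, hY, card_powersetCard, card_powersetCard, hD, card_range, Nat.choose_symm_half]
  have hYpos : 0 < Y.card := by
    rw [hY, card_powersetCard, hD, card_range]
    exact Nat.choose_pos (by omega)
  have hXne : X.Nonempty := by rw [← card_pos, hcard]; exact hYpos
  -- first sum
  have s1 : ∑ x ∈ X, ∑ i ∈ D, (if i ∈ x then a x i else 0) < X.card * M := by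
    have : ∑ x ∈ X, ∑ i ∈ D, (if i ∈ x then a x i else 0) < ∑ x ∈ X, M := by
      refine sum_lt_sum_of_nonempty hXne fun x hx => ?_
      rw [hX, mem_powersetCard] at hx
      refine lt_of_le_of_lt (sum_le_sum fun i _ => ?_) (hcon x hx.1 hx.2)
      have := h0 x hx.1 hx.2.le i
      split_ifs
      · exact le_rfl
      · linarith
    simpa using this
  have s2 : ∑ y ∈ Y, ∑ i ∈ D, (if i ∈ y then 0 else a y i)
      ≤ K * ∑ x ∈ X, ∑ i ∈ D, (if i ∈ x then a x i else 0) := by
    rw [sum_comm, sum_comm (s := X), mul_sum]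
    refine sum_le_sum fun i hi => ?_
    have e1 : ∑ x ∈ X, (if i ∈ x then a x i else 0)
        = ∑ y ∈ Y.filter (fun y => i ∉ y), a (insert i y) i := by
      rw [← sum_filter]
      symm
      refine sum_nbij' (fun y => insert i y) (fun x => x.erase i) ?_ ?_ ?_ ?_ ?_
      · intro y hy
        simp only [mem_filter, hY, hX, mem_powersetCard] at hy ⊢
        refine ⟨⟨insert_subset hi hy.1.1, ?_⟩, mem_insert_self _ _⟩
        rw [card_insert_of_notMem hy.2, hy.1.2]
      · intro x hx
        simp only [mem_filter, hY, hX, mem_powersetCard] at hx ⊢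
        refine ⟨⟨(erase_subset _ _).trans hx.1.1, ?_⟩, notMem_erase _ _⟩
        rw [card_erase_of_mem hx.2, hx.1.2]; rfl
      · intro y hy
        simp only [mem_filter] at hy
        exact erase_insert hy.2
      · intro x hx
        simp only [mem_filter] at hx
        exact insert_erase hx.2
      · intro y _; rfl
    have e2 : ∑ y ∈ Y, (if i ∈ y then 0 else a y i) = ∑ y ∈ Y.filter (fun y => i ∉ y), a y i := by
      rw [sum_filter]
      refine sum_congr rfl fun y _ => ?_
      by_cases h : i ∈ y <;> simp [h]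
    rw [e1, e2, mul_sum]
    refine sum_le_sum fun y hy => ?_
    simp only [mem_filter, hY, mem_powersetCard] at hy
    exact (h1 y hy.1.1 hy.1.2 i hi hy.2 i).1
  -- second sum
  have s3 : ∀ y ∈ Y, (m : ℝ) ≤ ∑ i ∈ D, (if i ∈ y then 0 else a y i) + K * M := by
    intro y hy
    rw [hY, mem_powersetCard] at hy
    have hlt : y.card < D.card := by rw [hy.2, hD, card_range]; omega
    obtain ⟨j, hjD, hjy⟩ := exists_mem_notMem_of_card_lt_card hlt
    have hsub : insert j y ⊆ D := insert_subset hjD hy.1
    have hc : (insert j y).card = m + 1 := by rw [card_insert_of_notMem hjy, hy.2]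
    have t1 := hcon _ hsub hc
    have t2 : ∑ i ∈ D, (if i ∈ insert j y then (0 : ℝ) else 1) = m := by
      rw [sum_ite]
      simp only [sum_const_zero, zero_add, sum_const, nsmul_eq_mul, mul_one]
      have : D.filter (fun i => i ∉ insert j y) = D \ insert j y := by
        ext i; simp only [mem_filter, mem_sdiff]
      rw [this, card_sdiff_of_subset hsub, hc, hD, card_range]
      congr 1; omega
    have t3 : ∑ i ∈ D, (if i ∈ insert j y then (0 : ℝ) else 1) ≤
        ∑ i ∈ D, ((if i ∈ y then 0 else a y i) +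
          K * (if i ∈ insert j y then a (insert j y) i else 1 - a (insert j y) i)) := by
      refine sum_le_sum fun i _ => ?_
      have u1 := h0 y hy.1 (by omega) i
      have u2 := h0 _ hsub hc.le i
      have u3 := (h1 y hy.1 hy.2 j hjD hjy i).2
      by_cases hi : i ∈ insert j y
      · rw [if_pos hi, if_pos hi]
        have : 0 ≤ K * a (insert j y) i := mul_nonneg hK.le u2.1
        split_ifs <;> linarith
      · rw [if_neg hi, if_neg hi, if_neg (fun h => hi (mem_insert_of_mem h))]
        linarith
    rw [sum_add_distrib, ← mul_sum, t2] at t3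
    have := mul_lt_mul_of_pos_left t1 hK
    linarith
  have s4 : ∑ y ∈ Y, (m : ℝ) ≤ ∑ y ∈ Y, (∑ i ∈ D, (if i ∈ y then 0 else a y i) + K * M) :=
    sum_le_sum s3
  rw [sum_add_distrib] at s4
  simp only [sum_const, nsmul_eq_mul] at s4
  have s5 := mul_lt_mul_of_pos_left s1 hK
  rw [hcard] at s5
  have hKM : K * M = m / 2 := by rw [hM]; field_simp
  have : K * (Y.card * M) = Y.card * (K * M) := by ring
  rw [this, hKM] at s5
  rw [hKM] at s4
  linarith

/-- staircase -/
def base (d r i : ℕ) : ℕ := (d - 1 - i) + if i = 0 then r else 0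

/-- staircase plus an indicator -/
noncomputable def stair (d r : ℕ) (x : Finset ℕ) : ℕ →₀ ℕ :=
  Finsupp.onFinset (range (d + 1) ∪ x) (fun i => base d r i + if i ∈ x then 1 else 0) (by
    intro i hi
    rw [mem_union, mem_range]
    by_contra h
    push Not at h
    apply hi
    have : i ≠ 0 := by omega
    simp only [base, if_neg this, if_neg h.2]
    omega)

theorem stair_apply (d r : ℕ) (x : Finset ℕ) (i : ℕ) :
    stair d r x i = base d r i + if i ∈ x then 1 else 0 := rfl

theorem stair_anti (d r : ℕ) (x : Finset ℕ) (hx : x ⊆ range d) : Antitone (stair d r x) := by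
  refine antitone_nat_of_succ_le fun i => ?_
  rw [stair_apply, stair_apply]
  have : i + 1 ∈ x → i + 1 < d := fun h => mem_range.1 (hx h)
  simp only [base]
  split_ifs <;> first | omega | (exfalso; omega) | (have := this ‹_›; omega)

theorem stair_size (m r : ℕ) (x : Finset ℕ) (hx : x ⊆ range (2 * m + 1)) :
    (stair (2 * m + 1) r x).sum (fun _ a => a) = m * (2 * m + 1) + r + x.card := by
  have hs : (stair (2 * m + 1) r x).support ⊆ range (2 * m + 1) := by
    intro i hi
    rw [Finsupp.mem_support_iff, stair_apply] at hi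
    by_contra h
    apply hi
    have h2 : i ∉ x := fun h' => h (hx h')
    rw [mem_range] at h
    have : i ≠ 0 := by omega
    simp only [base, if_neg this, if_neg h2]
    omega
  rw [Finsupp.sum_of_support_subset _ hs _ (fun _ _ => rfl)]
  simp only [stair_apply, base, sum_add_distrib]
  have e1 : ∑ i ∈ range (2 * m + 1), (2 * m + 1 - 1 - i) = m * (2 * m + 1) := by
    rw [sum_range_reflect (fun i => i)]
    have := sum_range_id_mul_two (2 * m + 1)
    have e : (2 * m + 1) * (2 * m + 1 - 1) = m * (2 * m + 1) * 2 := by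
      rw [Nat.add_sub_cancel]; ring
    omega
  have e2 : ∑ i ∈ range (2 * m + 1), (if i = 0 then r else 0) = r := by
    simp
  have e3 : ∑ i ∈ range (2 * m + 1), (if i ∈ x then 1 else 0) = x.card := by
    rw [← sum_filter, filter_mem_eq_inter, inter_eq_right.2 hx]; simp
  rw [e1, e2, e3]

theorem stair_dist (d r : ℕ) (y : Finset ℕ) (j : ℕ) (s : Finset ℕ) :
    ∑ i ∈ s, |((stair d r y i : ℕ) : ℤ) - stair d r (insert j y) i| ≤ 1 := by
  have : ∀ i ∈ s, |((stair d r y i : ℕ) : ℤ) - stair d r (insert j y) i|
      ≤ if i = j then 1 else 0 := by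
    intro i _
    rw [stair_apply, stair_apply]
    by_cases h : i = j
    · subst h
      simp only [mem_insert_self, if_true]
      split_ifs <;> simp
    · simp [h]
  refine (sum_le_sum this).trans ?_
  rw [sum_ite_eq']
  split_ifs <;> simp

theorem err_ge (d r : ℕ) (x : Finset ℕ) (μ : Measure (ℕ → ℝ)) [IsProbabilityMeasure μ] :
    ENNReal.ofReal ((1 / 2) * ∑ i ∈ range d,
      if i ∈ x then μ.real {o | o i < base d r i + 1 / 2}
      else 1 - μ.real {o | o i < base d r i + 1 / 2}) ≤
    ∫⁻ o, ∑' i, ENNReal.ofReal |o i - (stair d r x i : ℝ)| ∂μ := by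
  have hm : ∀ i, MeasurableSet {o : ℕ → ℝ | o i < base d r i + 1 / 2} := fun i =>
    measurableSet_lt (measurable_pi_apply i) measurable_const
  have hmf : ∀ i, Measurable fun o : ℕ → ℝ => ENNReal.ofReal |o i - (stair d r x i : ℝ)| := by
    intro i; fun_prop
  refine le_trans ?_ (lintegral_mono fun o => ENNReal.sum_le_tsum (range d))
  rw [lintegral_finset_sum _ (fun i _ => hmf i), mul_sum, ENNReal.ofReal_sum_of_nonneg]
  · refine sum_le_sum fun i _ => ?_
    have key : ∀ S : Set (ℕ → ℝ), MeasurableSet S →
        (∀ o ∈ S, 1 / 2 ≤ |o i - (stair d r x i : ℝ)|) →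
        ENNReal.ofReal (1 / 2 * μ.real S) ≤
          ∫⁻ o, ENNReal.ofReal |o i - (stair d r x i : ℝ)| ∂μ := by
      intro S hS h
      rw [ENNReal.ofReal_mul (by norm_num), ofReal_measureReal, ← lintegral_indicator_const hS]
      refine lintegral_mono fun o => ?_
      by_cases ho : o ∈ S
      · rw [Set.indicator_of_mem ho]
        exact ENNReal.ofReal_le_ofReal (h o ho)
      · rw [Set.indicator_of_notMem ho]; exact zero_le
    split_ifs with hi
    · refine key _ (hm i) fun o ho => ?_
      rw [stair_apply, if_pos hi]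
      push_cast
      rw [le_abs]; right
      have : o i < base d r i + 1 / 2 := ho
      linarith
    · rw [← probReal_compl_eq_one_sub (hm i)]
      refine key _ (hm i).compl fun o ho => ?_
      rw [stair_apply, if_neg hi]
      push_cast
      rw [le_abs]; left
      have : ¬ o i < base d r i + 1 / 2 := ho
      push Not at this
      linarith
  · intro i _
    refine mul_nonneg (by norm_num) ?_
    split_ifs
    · exact measureReal_nonneg
    · exact sub_nonneg.2 measureReal_le_one

end Pool.Agent.H.MP_c9d3d4_lc
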